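import Pool.Agent.helper17.SG.SpecB

/-!
# Project sg, module B11: orbit points near every point
-/

set_option autoImplicit false

open MeasureTheory Set Metric Filter Topology
open scoped ENNReal NNReal ComplexConjugate

namespace Pool.Agent.SG

theorem B11 (h01 : B01_stmt) (h02 : B02_stmt) (h03 : B03_stmt) : B11_stmt := by
  intro Γ _ A hcoc
  obtain ⟨r, hr1, hr⟩ := hcoc
  have hr0 : 0 ≤ r := by
    obtain ⟨γ, hγ⟩ := hr 0 (by simp)
    exact (norm_nonneg _).trans hγ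
  have hs : 0 < 1 - r := by linarith
  have hs1 : (1 - r) ^ 2 ≤ 1 - r := by nlinarith
  have hs2 : 0 < (1 - r) ^ 2 := by positivity
  refine ⟨5 / (1 - r) ^ 2, ?_, ?_⟩
  · rw [le_div_iff₀ hs2]
    nlinarith
  intro u t hu ht0 ht1
  set z : ℂ := ((1 - t / 2 : ℝ) : ℂ) * u with hz
  have hznorm : ‖z‖ = 1 - t / 2 := by
    rw [hz, norm_mul, hu, mul_one, Complex.norm_real, Real.norm_of_nonneg (by linarith)]
  have hzlt : ‖z‖ < 1 := by rw [hznorm]; linarith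
  obtain ⟨δ, hδ⟩ := hr z hzlt
  set γ : Γ := δ⁻¹ with hγ
  have hγδ : γ⁻¹ = δ := by rw [hγ, inv_inv]
  set w : ℂ := A.act δ z with hw
  obtain ⟨h1, h2, h3, h4, h5, h6, h7, -⟩ := h01 Γ A
  obtain ⟨k1, k2, k3⟩ := h02 Γ A γ
  obtain ⟨m1, m2, m3, m4, -⟩ := h03 Γ A
  have hzw : A.act γ w = z := by
    have := h7 γ z hzlt.le
    rw [hγδ] at this
    exact this
  set q : ℂ := A.pt γ⁻¹ with hq
  have hq1 : ‖q‖ < 1 := m4 _
  have hw1 : ‖w‖ ≤ 1 := hδ.trans hr1.le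
  have hqw : ‖conj q * w‖ ≤ r := by
    rw [norm_mul, RCLike.norm_conj]
    calc ‖q‖ * ‖w‖ ≤ 1 * r := mul_le_mul hq1.le hδ (norm_nonneg _) zero_le_one
      _ = r := one_mul r
  have hlow : 1 - r ≤ ‖1 - conj q * w‖ := by
    have := norm_sub_norm_le (1 : ℂ) (conj q * w)
    rw [norm_one] at this
    linarith
  have hup : ‖1 - conj q * w‖ ≤ 2 := by
    have := norm_sub_le (1 : ℂ) (conj q * w)
    rw [norm_one] at this
    linarith
  have e2 := k2 w hw1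
  rw [hzw] at e2
  have e1 := k1 w 0 hw1 (by simp)
  rw [hzw] at e1
  have hpt : A.act γ 0 = A.pt γ := rfl
  rw [hpt] at e1
  simp only [mul_zero, sub_zero, norm_one, mul_one] at e1
  set D : ℝ := ‖1 - conj q * w‖ with hD
  have hD0 : 0 < D := lt_of_lt_of_le hs hlow
  have hkk := (m1 γ).1
  rw [hznorm] at e2
  have hww : ‖w‖ ^ 2 ≤ r ^ 2 := pow_le_pow_left₀ (norm_nonneg _) hδ 2
  have hwr : ‖w‖ ^ 2 ≤ r := by nlinarith
  have hD2 : D ^ 2 ≤ 4 := by nlinarith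
  have hD3 : (1 - r) ^ 2 ≤ D ^ 2 := pow_le_pow_left₀ hs.le hlow 2
  have hkup : A.kk γ * (1 - r) ≤ 4 * t := by
    have a1 : A.kk γ * (1 - r) ≤ A.kk γ * (1 - ‖w‖ ^ 2) :=
      mul_le_mul_of_nonneg_left (by linarith) hkk.le
    have a2 : (1 - (1 - t / 2) ^ 2) * D ^ 2 ≤ t * 4 := by
      apply mul_le_mul _ hD2 (sq_nonneg D) ht0.le
      nlinarith
    linarith
  have hklow : t / 2 * (1 - r) ^ 2 ≤ A.kk γ := by
    have a1 : A.kk γ * (1 - ‖w‖ ^ 2) ≤ A.kk γ * 1 :=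
      mul_le_mul_of_nonneg_left (by nlinarith [sq_nonneg ‖w‖]) hkk.le
    have a2 : t / 2 * (1 - r) ^ 2 ≤ (1 - (1 - t / 2) ^ 2) * D ^ 2 := by
      apply mul_le_mul _ hD3 hs2.le _
      · nlinarith
      · nlinarith
    linarith
  have hdist : ‖z - A.pt γ‖ * (1 - r) ≤ A.kk γ := by
    have a1 : ‖z - A.pt γ‖ * (1 - r) ≤ ‖z - A.pt γ‖ * D :=
      mul_le_mul_of_nonneg_left hlow (norm_nonneg _)
    have a2 : A.kk γ * ‖w‖ ≤ A.kk γ * 1 := mul_le_mul_of_nonneg_left hw1 hkk.le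
    linarith
  have huz : ‖u - z‖ = t / 2 := by
    have : u - z = ((t / 2 : ℝ) : ℂ) * u := by
      rw [hz]
      push_cast
      ring
    rw [this, norm_mul, hu, mul_one, Complex.norm_real, Real.norm_of_nonneg (by linarith)]
  refine ⟨γ, ?_, ?_, ?_⟩
  · rw [div_div_eq_mul_div, div_le_iff₀ (by norm_num : (0 : ℝ) < 5)]
    nlinarith
  · rw [div_mul_eq_mul_div, le_div_iff₀ hs2]
    have : A.kk γ * (1 - r) ^ 2 ≤ A.kk γ * (1 - r) := mul_le_mul_of_nonneg_left hs1 hkk.le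
    linarith
  · have a1 : ‖u - A.pt γ‖ ≤ ‖u - z‖ + ‖z - A.pt γ‖ := norm_sub_le_norm_sub_add_norm_sub _ _ _
    rw [huz] at a1
    have a2 : ‖z - A.pt γ‖ * (1 - r) ^ 2 ≤ 4 * t := by
      calc ‖z - A.pt γ‖ * (1 - r) ^ 2 = (‖z - A.pt γ‖ * (1 - r)) * (1 - r) := by ring
        _ ≤ A.kk γ * (1 - r) := mul_le_mul_of_nonneg_right hdist hs.le
        _ ≤ 4 * t := hkup
    rw [div_mul_eq_mul_div, le_div_iff₀ hs2]
    have a3 : ‖u - A.pt γ‖ * (1 - r) ^ 2 ≤ (t / 2 + ‖z - A.pt γ‖) * (1 - r) ^ 2 :=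
      mul_le_mul_of_nonneg_right a1 hs2.le
    have a4 : t / 2 * (1 - r) ^ 2 ≤ t / 2 * 1 := mul_le_mul_of_nonneg_left (by nlinarith) (by linarith)
    nlinarith

end Pool.Agent.SG
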